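import Mathlib
import Pool.Agent.K1H53.BI.Plan

set_option autoImplicit false

/-! # Lattice points in balls (piece BALL of the project BI, by helper93) -/

open MeasureTheory

namespace Pool.Agent.K1H93.BI

open Pool.Agent.K1H53.BI

abbrev E3 : Type := EuclideanSpace ℝ (Fin 3)

/-- the lattice point as a vector -/
noncomputable def vec (z : V) : E3 := WithLp.toLp 2 (fun i => (z i : ℝ))

theorem vec_apply (z : V) (i : Fin 3) : vec z i = z i := rfl

theorem norm_vec (z : V) : ‖vec z‖ = nrm z := by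
  rw [EuclideanSpace.norm_eq]
  unfold nrm nsq
  congr 1
  push_cast
  apply Finset.sum_congr rfl
  intro i _
  rw [vec_apply, Real.norm_eq_abs, sq_abs, Nat.cast_natAbs, Int.cast_abs, sq_abs]

/-- the half-open cube around `z` -/
def Q (z : V) : Set E3 := {u | ∀ i, (z i : ℝ) - 1 / 2 ≤ u i ∧ u i < z i + 1 / 2}

theorem Q_eq (z : V) : Q z = (@WithLp.ofLp 2 (Fin 3 → ℝ)) ⁻¹'
    (Set.univ.pi fun i => Set.Ico ((z i : ℝ) - 1 / 2) (z i + 1 / 2)) := by
  ext u
  rw [Set.mem_preimage, Set.mem_univ_pi]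
  rfl

theorem vol_Q (z : V) : volume (Q z) = 1 := by
  rw [Q_eq, (PiLp.volume_preserving_ofLp (Fin 3)).measure_preimage
    (MeasurableSet.univ_pi fun i => measurableSet_Ico).nullMeasurableSet, Real.volume_pi_Ico]
  apply Finset.prod_eq_one
  intro i _
  have : (z i : ℝ) + 1 / 2 - (z i - 1 / 2) = 1 := by ring
  rw [this, ENNReal.ofReal_one]

theorem meas_Q (z : V) : MeasurableSet (Q z) := by
  rw [Q_eq]
  exact (PiLp.volume_preserving_ofLp (Fin 3)).measurable
    (MeasurableSet.univ_pi fun i => measurableSet_Ico)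

theorem disj_Q {z z' : V} (h : z ≠ z') : Disjoint (Q z) (Q z') := by
  rw [Set.disjoint_left]
  intro u hu hu'
  apply h
  ext i
  have h1 := hu i
  have h2 := hu' i
  have h3 : (z i : ℝ) < z' i + 1 := by linarith [h1.1, h2.2]
  have h4 : (z' i : ℝ) < z i + 1 := by linarith [h1.2, h2.1]
  have h5 : z i < z' i + 1 := by exact_mod_cast h3
  have h6 : z' i < z i + 1 := by exact_mod_cast h4
  omega

theorem near {z : V} {u : E3} (hu : u ∈ Q z) : ‖u - vec z‖ < 1 := by
  rw [EuclideanSpace.norm_eq, Real.sqrt_lt' one_pos]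
  have h : ∀ i : Fin 3, ‖(u - vec z) i‖ ^ 2 ≤ 1 / 4 := by
    intro i
    have h1 := hu i
    have h2 : (u - vec z) i = u i - z i := rfl
    rw [h2, Real.norm_eq_abs, sq_abs]
    nlinarith [h1.1, h1.2]
  calc ∑ i, ‖(u - vec z) i‖ ^ 2 ≤ ∑ _i : Fin 3, (1 / 4 : ℝ) := Finset.sum_le_sum fun i _ => h i
    _ < 1 ^ 2 := by norm_num

theorem vol_union (A : Finset V) : volume (⋃ z ∈ A, Q z) = A.card := by
  rw [measure_biUnion_finset (fun z _ z' _ h => disj_Q h) (fun z _ => meas_Q z)]
  simp only [vol_Q, Finset.sum_const, nsmul_eq_mul, mul_one]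

theorem vol_ball (r : ℝ) (hr : 0 ≤ r) :
    volume (Metric.ball (0 : E3) r) = ENNReal.ofReal (4 * Real.pi / 3 * r ^ 3) := by
  rw [EuclideanSpace.volume_ball_fin_three, ← ENNReal.ofReal_pow hr, ← ENNReal.ofReal_mul (by positivity)]
  congr 1
  ring

theorem t_BALL : S_BALL := by
  constructor
  · intro ρ A hρ hA
    have h1 : (⋃ z ∈ A, Q z) ⊆ Metric.ball (0 : E3) (ρ + 1) := by
      intro u hu
      simp only [Set.mem_iUnion, exists_prop] at hu
      obtain ⟨z, hz, hu⟩ := hu
      rw [mem_ball_zero_iff]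
      have h2 := near hu
      have h3 := hA z hz
      rw [← norm_vec] at h3
      have h4 : ‖u‖ ≤ ‖u - vec z‖ + ‖vec z‖ := by
        simpa using norm_add_le (u - vec z) (vec z)
      linarith
    have h5 := measure_mono (μ := volume) h1
    rw [vol_union, vol_ball _ (by linarith)] at h5
    have h6 : (0 : ℝ) ≤ 4 * Real.pi / 3 * (ρ + 1) ^ 3 := by positivity
    rw [← ENNReal.ofReal_natCast, ENNReal.ofReal_le_ofReal_iff h6] at h5
    exact h5
  · intro ρ A hρ hA
    have h1 : Metric.ball (0 : E3) (ρ - 1) ⊆ ⋃ z ∈ A, Q z := by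
      intro u hu
      rw [mem_ball_zero_iff] at hu
      simp only [Set.mem_iUnion, exists_prop]
      let z : V := fun i => ⌊u i + 1 / 2⌋
      have hz : u ∈ Q z := by
        intro i
        have h2 := Int.floor_le (u i + 1 / 2)
        have h3 := Int.lt_floor_add_one (u i + 1 / 2)
        constructor
        · show ((⌊u i + 1 / 2⌋ : ℤ) : ℝ) - 1 / 2 ≤ u i
          linarith
        · show u i < ((⌊u i + 1 / 2⌋ : ℤ) : ℝ) + 1 / 2
          linarith
      refine ⟨z, hA z ?_, hz⟩
      rw [← norm_vec]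
      have h2 := near hz
      have h4 : ‖vec z‖ ≤ ‖u - vec z‖ + ‖u‖ := by
        have := norm_sub_le u (u - vec z)
        rw [sub_sub_cancel] at this
        linarith
      linarith
    have h5 := measure_mono (μ := volume) h1
    rw [vol_union, vol_ball _ (by linarith)] at h5
    rw [← ENNReal.ofReal_natCast, ENNReal.ofReal_le_ofReal_iff (Nat.cast_nonneg _)] at h5
    exact h5

end Pool.Agent.K1H93.BI
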